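import Pool.Agent.Lib.H69.Tdlc.Main

/-!
Let `G` be a group of the class `𝒮` (nondiscrete, compactly generated, topologically simple,
totally disconnected, locally compact).  If `G` has a nontrivial subgroup `K` with open normalizer
whose centralizer is nontrivial (that is, if the centralizer lattice of `G` is nontrivial), then
some element of `G` normalizes no compact open subgroup of `G`.
-/

namespace Pool.Agent.Results.MP_35f2a7_al.CentralizerLattice

open Pool.Agent.Lib.H69.Tdlc

universe u

theorem result {G : Type u} [Group G] [TopologicalSpace G] (hG : ClassS G)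
    (K : Subgroup G) (hK : K ≠ ⊥)
    (hN : IsOpen ((Subgroup.normalizer (K : Set G) : Subgroup G) : Set G))
    (hC : Subgroup.centralizer (K : Set G) ≠ ⊥) :
    ∃ g : G, ∀ U : Subgroup G, IsCompact (U : Set G) → IsOpen (U : Set G) →
      g ∉ Subgroup.normalizer (U : Set G) := by
  have := hG.isTopologicalGroup
  have := hG.t2
  have := hG.locallyCompact
  have := hG.totallyDisconnected
  have hreg : Reg (Ce K) := ON.regCe hN
  have htop : Ce K ≠ ⊤ := by
    intro h
    apply hK
    apply (ClassS.hyp hG).ab K hN
    intro x hx y hy
    have hy' : y ∈ Ce K := by rw [h]; exact Subgroup.mem_top y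
    rw [mem_Ce] at hy'
    exact hy' x hx
  obtain ⟨g, hg⟩ := main_reg hG hreg hC htop
  refine ⟨g, fun U hUc hUo hgU => hg U hUc hUo ?_⟩
  exact mem_No_iff.mp hgU

end Pool.Agent.Results.MP_35f2a7_al.CentralizerLattice
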